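import Mathlib

/-!
Triples `(f, v, q)` with `v` in a commutative ring `R`, `q` in a commutative group acting by units of
`R`, and `f` a function from `R` to the integers modulo `p`: a semidirect product in which `v` and
`q` act on functions by translation and dilation. The subgroup `Sy` consists of the triples for
which all sums of `f` along `n` equidistant points are given by a form.
-/

namespace Pool.Agent.Helper25.EMN

/-- triples -/
@[ext] structure W {Q R : Type} [CommGroup Q] [CommRing R] (T : Q →* R) (p : ℕ) where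
  f : R → ZMod p
  v : R
  q : Q

namespace W

variable {Q R : Type} [CommGroup Q] [CommRing R] {T : Q →* R} {p : ℕ}

instance : Mul (W T p) :=
  ⟨fun a b => ⟨fun x => a.f x + b.f (T a.q⁻¹ * (x - a.v)), a.v + T a.q * b.v, a.q * b.q⟩⟩

instance : One (W T p) := ⟨⟨0, 0, 1⟩⟩

instance : Inv (W T p) :=
  ⟨fun a => ⟨fun x => -a.f (T a.q * x + a.v), -(T a.q⁻¹ * a.v), a.q⁻¹⟩⟩

@[simp] theorem mul_f (a b : W T p) (x : R) :
    (a * b).f x = a.f x + b.f (T a.q⁻¹ * (x - a.v)) := rfl
@[simp] theorem mul_v (a b : W T p) : (a * b).v = a.v + T a.q * b.v := rfl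
@[simp] theorem mul_q (a b : W T p) : (a * b).q = a.q * b.q := rfl
@[simp] theorem one_f (x : R) : (1 : W T p).f x = 0 := rfl
@[simp] theorem one_v : (1 : W T p).v = 0 := rfl
@[simp] theorem one_q : (1 : W T p).q = 1 := rfl
@[simp] theorem inv_f (a : W T p) (x : R) : (a⁻¹).f x = -a.f (T a.q * x + a.v) := rfl
@[simp] theorem inv_v (a : W T p) : (a⁻¹).v = -(T a.q⁻¹ * a.v) := rfl
@[simp] theorem inv_q (a : W T p) : (a⁻¹).q = a.q⁻¹ := rfl

theorem T_inv (T : Q →* R) (q : Q) : T q⁻¹ * T q = 1 := by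
  rw [← map_mul, inv_mul_cancel, map_one]

theorem T_inv' (T : Q →* R) (q : Q) : T q * T q⁻¹ = 1 := by
  rw [← map_mul, mul_inv_cancel, map_one]

instance : Group (W T p) :=
  Group.ofLeftAxioms
    (by
      intro a b c
      ext x
      · simp only [mul_f, mul_v, mul_q, mul_inv, map_mul]
        have e : T a.q⁻¹ * T b.q⁻¹ * (x - (a.v + T a.q * b.v)) =
            T b.q⁻¹ * (T a.q⁻¹ * (x - a.v) - b.v) := by
          linear_combination (-(T b.q⁻¹ * b.v)) * T_inv T a.q
        rw [e]
        ring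
      · simp only [mul_v, mul_q, map_mul]; ring
      · simp only [mul_q, mul_assoc])
    (by
      intro a
      ext x
      · simp
      · simp
      · simp)
    (by
      intro a
      ext x
      · simp only [mul_f, inv_f, inv_v, inv_q, one_f, inv_inv]
        have e : T a.q * (x - -(T a.q⁻¹ * a.v)) = T a.q * x + a.v := by
          linear_combination a.v * T_inv' T a.q
        rw [e]
        ring
      · simp
      · simp)

/-- the projection to `Q` -/
def toQ (T : Q →* R) (p : ℕ) : W T p →* Q where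
  toFun a := a.q
  map_one' := rfl
  map_mul' _ _ := rfl

/-- the section -/
def inQ (T : Q →* R) (p : ℕ) : Q →* W T p where
  toFun q := ⟨0, 0, q⟩
  map_one' := rfl
  map_mul' a b := by ext <;> simp

@[simp] theorem inQ_v (q : Q) : (inQ T p q).v = 0 := rfl
@[simp] theorem inQ_q (q : Q) : (inQ T p q).q = q := rfl

theorem zpow_q (x : W T p) (n : ℤ) : (x ^ n).q = x.q ^ n := by
  have := map_zpow (toQ T p) x n
  simpa [toQ] using this

/-- commutator coordinates when the first element lies in the kernel -/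
theorem comm_v (a g : W T p) (ha : a.q = 1) : (a * g * a⁻¹ * g⁻¹).v = (1 - T g.q) * a.v := by
  simp only [mul_v, inv_v, mul_q, inv_q, ha, inv_one, mul_one, one_mul, map_one]
  linear_combination (-g.v) * T_inv' T g.q

theorem comm_q (a g : W T p) : (a * g * a⁻¹ * g⁻¹).q = 1 := by
  simp only [mul_q, inv_q]
  rw [mul_comm a.q g.q]; group

theorem comm_v' (h g : W T p) :
    (h * g * h⁻¹ * g⁻¹).v = (1 - T g.q) * h.v - (1 - T h.q) * g.v := by
  simp only [mul_v, inv_v, mul_q, inv_q, map_mul]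
  linear_combination (-(T g.q * h.v) - g.v * (T g.q * T g.q⁻¹)) * T_inv' T h.q -
    g.v * T_inv' T g.q

theorem conj_v (g d : W T p) (hd : d.q = 1) : (g * d * g⁻¹).v = T g.q * d.v := by
  simp only [mul_v, inv_v, mul_q, hd, mul_one]
  linear_combination (-g.v) * T_inv' T g.q

theorem conj_q (g d : W T p) (hd : d.q = 1) : (g * d * g⁻¹).q = 1 := by
  simp [hd]

theorem pow_aux (a : W T p) (ha : a.q = 1) (n : ℕ) :
    (∀ x, (a ^ n).f x = ∑ i ∈ Finset.range n, a.f (x + (i : R) * (-a.v))) ∧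
      (a ^ n).v = (n : R) * a.v ∧ (a ^ n).q = 1 := by
  induction n with
  | zero => simp
  | succ n ih =>
    obtain ⟨h1, h2, h3⟩ := ih
    refine ⟨fun x => ?_, ?_, ?_⟩
    · rw [pow_succ, mul_f, h1, h3, h2, Finset.sum_range_succ, inv_one, map_one, one_mul]
      congr 2
      ring
    · rw [pow_succ, mul_v, h2, h3, map_one, one_mul]
      push_cast
      ring
    · rw [pow_succ, mul_q, h3, ha, one_mul]

end W

/-- forms -/
structure Fm {Q R : Type} [CommGroup Q] [CommRing R] (T : Q →* R) (p : ℕ) where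
  B : R → R → ZMod p
  add : ∀ v v' y, B (v + v') y = B v y + B v' y
  eqv : ∀ q v y, B (T q * v) y = B v (T q⁻¹ * y)
  neg : ∀ v y, B v (-y) = B v y

namespace W

variable {Q R : Type} [CommGroup Q] [CommRing R] {T : Q →* R} {p : ℕ}

theorem B_zero (D : Fm T p) (y : R) : D.B 0 y = 0 := by
  have := D.add 0 0 y
  rw [add_zero] at this
  exact left_eq_add.mp this

theorem B_neg (D : Fm T p) (v y : R) : D.B (-v) y = -D.B v y := by
  have := D.add v (-v) y
  rw [add_neg_cancel, B_zero] at this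
  exact (neg_eq_of_add_eq_zero_right this.symm).symm

/-- the triples whose sums over `n` equidistant points are given by the form -/
def Sy (D : Fm T p) (n : ℕ) : Subgroup (W T p) where
  carrier := {a | ∀ x y, ∑ i ∈ Finset.range n, a.f (x + (i : R) * y) = D.B a.v y}
  one_mem' := by
    intro x y
    simp [B_zero]
  mul_mem' := by
    intro a b ha hb x y
    rw [mul_v, D.add, D.eqv, ← ha x y, ← hb (T a.q⁻¹ * (x - a.v)) (T a.q⁻¹ * y),
      ← Finset.sum_add_distrib]
    refine Finset.sum_congr rfl fun i _ => ?_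
    rw [mul_f]
    congr 2
    ring
  inv_mem' := by
    intro a ha x y
    rw [inv_v, B_neg, D.eqv, inv_inv, ← ha (T a.q * x + a.v) (T a.q * y), ← Finset.sum_neg_distrib]
    refine Finset.sum_congr rfl fun i _ => ?_
    rw [inv_f]
    congr 2
    ring

theorem mem_Sy {D : Fm T p} {n : ℕ} {a : W T p} :
    a ∈ Sy D n ↔ ∀ x y, ∑ i ∈ Finset.range n, a.f (x + (i : R) * y) = D.B a.v y := Iff.rfl

theorem pow_n {D : Fm T p} {n : ℕ} (hn : (n : R) = 0) {a : W T p} (ha : a ∈ Sy D n)
    (hq : a.q = 1) : a ^ n = ⟨fun _ => D.B a.v a.v, 0, 1⟩ := by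
  obtain ⟨h1, h2, h3⟩ := pow_aux a hq n
  ext x
  · rw [h1, mem_Sy.mp ha, D.neg]
  · rw [h2, hn, zero_mul]
  · rw [h3]

theorem pow_np {D : Fm T p} {n : ℕ} (hn : (n : R) = 0) {a : W T p} (ha : a ∈ Sy D n)
    (hq : a.q = 1) : a ^ (n * p) = 1 := by
  rw [pow_mul, pow_n hn ha hq]
  set z : W T p := ⟨fun _ => D.B a.v a.v, 0, 1⟩ with hz
  obtain ⟨h1, h2, h3⟩ := pow_aux z rfl p
  ext x
  · rw [h1]
    simp [hz]
  · rw [h2]
    simp [hz]
  · rw [h3]
    rfl

theorem B_of_pow {D : Fm T p} {n : ℕ} (hn : (n : R) = 0) {a : W T p} (ha : a ∈ Sy D n)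
    (hq : a.q = 1) {m : ℕ} (hm : Nat.gcd m (n * p) = n) (h : a ^ m = 1) : D.B a.v a.v = 0 := by
  have h1 : a ^ n = 1 := by
    have := pow_gcd_eq_one.mpr ⟨h, pow_np hn ha hq⟩
    rwa [hm] at this
  rw [pow_n hn ha hq] at h1
  exact congrFun (congrArg W.f h1) 0

end W

end Pool.Agent.Helper25.EMN
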