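import Pool.Agent.Helper25.EMN.Th
import Pool.Agent.Helper25.EMN.Grp

/-!
The concrete form over the product of two group rings of the integer lattice, with coefficients
modulo `p` and modulo `p ^ a`, and the basic function.
-/

namespace Pool.Agent.Helper25.EMN

open MonoidAlgebra

/-- the lattice written multiplicatively -/
abbrev LZ := Multiplicative (ℤ × ℤ)

/-- group ring modulo `n` -/
abbrev GR (n : ℕ) := MonoidAlgebra (ZMod n) LZ

/-- the product ring -/
abbrev RR (p a : ℕ) := GR p × GR (p ^ a)

/-- the group elements in the product ring -/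
noncomputable def TT (p a : ℕ) : LZ →* RR p a :=
  (MonoidAlgebra.of (ZMod p) LZ).prod (MonoidAlgebra.of (ZMod (p ^ a)) LZ)

theorem TT_fst (p a : ℕ) (q : LZ) : (TT p a q).1 = single q 1 := rfl
theorem TT_snd (p a : ℕ) (q : LZ) : (TT p a q).2 = single q 1 := rfl

open scoped Classical in
/-- weights -/
noncomputable def th (p : ℕ) (q : LZ) : ZMod p :=
  if EE p (Multiplicative.toAdd q).1 (Multiplicative.toAdd q).2 then 1 else 0

/-- convolution with the weights -/
noncomputable def Th (p : ℕ) (g : LZ) : GR p →+ ZMod p :=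
  MonoidAlgebra.liftNC (AddMonoidHom.id (ZMod p)) (fun h => th p (h⁻¹ * g))

theorem Th_single (p : ℕ) (g h : LZ) (r : ZMod p) : Th p g (single h r) = r * th p (h⁻¹ * g) := by
  unfold Th
  rw [MonoidAlgebra.liftNC_single]
  rfl

theorem Th_mul (p : ℕ) (g q : LZ) (c : GR p) : Th p g (single q 1 * c) = Th p (q⁻¹ * g) c := by
  induction c using MonoidAlgebra.induction_linear with
  | zero => rw [mul_zero, map_zero, map_zero]
  | add x y hx hy => rw [mul_add, map_add, map_add, hx, hy]
  | single h r =>
    rw [single_mul_single, one_mul, Th_single, Th_single, mul_inv, mul_comm q⁻¹ h⁻¹, mul_assoc]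

theorem Th_apply (p : ℕ) (g : LZ) (c : GR p) :
    Th p g c = ∑ h ∈ c.coeff.support, c.coeff h * th p (h⁻¹ * g) := by
  conv_lhs => rw [← MonoidAlgebra.sum_coeff_single c]
  rw [Finsupp.sum, map_sum]
  exact Finset.sum_congr rfl fun h _ => Th_single p g h _

section

variable {p a : ℕ} (hp : p.Prime) (ha : 1 ≤ a)

include hp ha in
theorem one_lt_pow' : 1 < p ^ a := Nat.one_lt_pow (by omega) hp.one_lt

include hp ha in
theorem not_isUnit_zero' : ¬ IsUnit (0 : ZMod (p ^ a)) := by
  have : Fact (1 < p ^ a) := ⟨one_lt_pow' hp ha⟩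
  exact not_isUnit_zero

open scoped Classical in
/-- the summand of the form -/
noncomputable def bt (v y : RR p a) (g : LZ) : ZMod p :=
  if IsUnit (y.2.coeff g) then Th p g v.1 else 0

include hp ha in
theorem bt_finite (v y : RR p a) : (Function.support (bt v y)).Finite := by
  refine y.2.coeff.hasFiniteSupport.subset fun g hg => ?_
  rw [Function.mem_support] at hg ⊢
  intro h0
  apply hg
  unfold bt
  rw [h0, if_neg (not_isUnit_zero' hp ha)]

/-- the form -/
noncomputable def BB (v y : RR p a) : ZMod p := ∑ᶠ g, bt v y g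

/-- the form as a structure -/
noncomputable def DF : Fm (TT p a) p where
  B := BB
  add := by
    intro v v' y
    unfold BB
    rw [← finsum_add_distrib (bt_finite hp ha v y) (bt_finite hp ha v' y)]
    refine finsum_congr fun g => ?_
    unfold bt
    rw [Prod.fst_add, map_add]
    split_ifs
    · rfl
    · rw [add_zero]
  eqv := by
    intro q v y
    unfold BB
    rw [← finsum_comp_equiv (Equiv.mulLeft q)]
    refine finsum_congr fun g => ?_
    unfold bt
    rw [Prod.fst_mul, TT_fst, Th_mul, Prod.snd_mul, TT_snd, coeff_single_mul_apply, one_mul,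
      inv_inv]
    simp only [Equiv.coe_mulLeft]
    rw [inv_mul_cancel_left]
    rfl
  neg := by
    intro v y
    unfold BB
    refine finsum_congr fun g => ?_
    unfold bt
    have e : (-y).2.coeff g = -(y.2.coeff g) := by
      rw [Prod.snd_neg, MonoidAlgebra.coeff_neg]
      rfl
    rw [e]
    by_cases h : IsUnit (y.2.coeff g)
    · rw [if_pos h, if_pos h.neg]
    · rw [if_neg h, if_neg (fun h' => h (IsUnit.neg_iff _ |>.mp h'))]

theorem DF_B (v y : RR p a) : (DF hp ha).B v y = ∑ᶠ g, bt v y g := rfl

/-- sums of a periodic function -/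
theorem sum_periodic {M : Type} [AddCommMonoid M] (φ : ℕ → M) (k : ℕ) (h : ∀ i, φ (i + k) = φ i)
    (l : ℕ) : ∑ i ∈ Finset.range (l * k), φ i = l • ∑ i ∈ Finset.range k, φ i := by
  have h' : ∀ l i : ℕ, φ (l * k + i) = φ i := by
    intro l
    induction l with
    | zero => intro i; simp
    | succ l ih =>
      intro i
      have e : (l + 1) * k + i = (l * k + i) + k := by ring
      rw [e, h, ih]
  induction l with
  | zero => simp
  | succ l ih =>
    rw [add_mul, one_mul, Finset.sum_range_add, ih, add_smul, one_smul]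
    congr 1
    exact Finset.sum_congr rfl fun i _ => h' l i

include hp ha in
theorem nonunit_mul {y : ZMod (p ^ a)} (hy : ¬ IsUnit y) : ((p ^ (a - 1) : ℕ) : ZMod (p ^ a)) * y = 0 := by
  have : NeZero (p ^ a) := ⟨(pow_pos hp.pos a).ne'⟩
  have h1 : ¬ Nat.Coprime y.val (p ^ a) := by
    intro h
    apply hy
    have := (ZMod.isUnit_iff_coprime y.val (p ^ a)).mpr h
    rwa [ZMod.natCast_zmod_val] at this
  have h2 : p ∣ y.val := by
    by_contra hcon
    exact h1 (Nat.Coprime.pow_right a ((hp.coprime_iff_not_dvd.mpr hcon).symm))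
  obtain ⟨z, hz⟩ := h2
  have h3 : ((y.val : ℕ) : ZMod (p ^ a)) = y := ZMod.natCast_zmod_val y
  rw [← h3, hz, ← Nat.cast_mul]
  have e : p ^ (a - 1) * (p * z) = p ^ a * z := by
    rw [← mul_assoc, ← pow_succ, Nat.sub_add_cancel ha]
  rw [e, Nat.cast_mul, ZMod.natCast_self, zero_mul]

open scoped Classical in
include hp ha in
/-- the number of solutions of a linear equation modulo `p` -/
theorem count (x y : ZMod (p ^ a)) (c : ZMod p) :
    ∑ i ∈ Finset.range (p ^ a), (if x + (i : ZMod (p ^ a)) * y = -1 then c else 0) =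
      if IsUnit y then c else 0 := by
  have : NeZero (p ^ a) := ⟨(pow_pos hp.pos a).ne'⟩
  by_cases hy : IsUnit y
  · rw [if_pos hy]
    obtain ⟨u, rfl⟩ := hy
    set i0 : ZMod (p ^ a) := (-1 - x) * ((u⁻¹ : (ZMod (p ^ a))ˣ) : ZMod (p ^ a)) with hi0
    have huu : ((u⁻¹ : (ZMod (p ^ a))ˣ) : ZMod (p ^ a)) * (u : ZMod (p ^ a)) = 1 := by
      rw [← Units.val_mul, inv_mul_cancel, Units.val_one]
    rw [Finset.sum_eq_single i0.val]
    · rw [if_pos]
      rw [ZMod.natCast_zmod_val, hi0, mul_assoc, huu]
      ring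
    · intro i hi hne
      rw [if_neg]
      intro h
      apply hne
      have h1 : ((i : ℕ) : ZMod (p ^ a)) = i0 := by
        have h2 : ((i : ℕ) : ZMod (p ^ a)) * (u : ZMod (p ^ a)) = -1 - x := by
          linear_combination h
        rw [hi0, ← h2, mul_assoc, mul_comm (u : ZMod (p ^ a)), huu, mul_one]
      rw [← h1, ZMod.val_natCast, Nat.mod_eq_of_lt (Finset.mem_range.mp hi)]
    · intro h
      exact absurd (Finset.mem_range.mpr (ZMod.val_lt i0)) h
  · rw [if_neg hy]
    have e : p ^ a = p * p ^ (a - 1) := by rw [← pow_succ', Nat.sub_add_cancel ha]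
    rw [Finset.sum_congr (by rw [e] : Finset.range (p ^ a) = Finset.range (p * p ^ (a - 1)))
      (fun _ _ => rfl)]
    rw [sum_periodic _ (p ^ (a - 1))]
    · rw [nsmul_eq_mul, CharP.cast_eq_zero, zero_mul]
    · intro i
      have h1 := nonunit_mul hp ha hy
      have h2 : x + ((i + p ^ (a - 1) : ℕ) : ZMod (p ^ a)) * y = x + (i : ZMod (p ^ a)) * y := by
        rw [Nat.cast_add]
        linear_combination h1
      rw [h2]

open scoped Classical in
/-- the summand of the basic function -/
noncomputable def ft (x : RR p a) (g : LZ) : ZMod p := if x.2.coeff g = -1 then th p g else 0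

/-- the basic function -/
noncomputable def f0 (x : RR p a) : ZMod p := ∑ᶠ g, ft x g

include hp ha in
theorem ft_finite (x : RR p a) : (Function.support (ft x)).Finite := by
  refine x.2.coeff.hasFiniteSupport.subset fun g hg => ?_
  rw [Function.mem_support] at hg ⊢
  intro h0
  apply hg
  unfold ft
  rw [h0, if_neg]
  have : Fact (1 < p ^ a) := ⟨one_lt_pow' hp ha⟩
  intro h
  have h1 : (1 : ZMod (p ^ a)) = 0 := by
    have := congrArg Neg.neg h
    rw [neg_zero, neg_neg] at this
    exact this.symm
  exact one_ne_zero h1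

theorem coeff_nat_mul (n i : ℕ) (y : GR n) (g : LZ) :
    ((i : GR n) * y).coeff g = (i : ZMod n) * y.coeff g := by
  induction i with
  | zero => simp
  | succ i ih =>
    rw [Nat.cast_succ, add_mul, one_mul, MonoidAlgebra.coeff_add, Finsupp.add_apply, ih,
      Nat.cast_succ, add_mul, one_mul]

include hp ha in
theorem f0_sum (x y : RR p a) :
    ∑ i ∈ Finset.range (p ^ a), f0 (x + (i : RR p a) * y) = (DF hp ha).B (1, 0) y := by
  rw [DF_B]
  unfold f0
  rw [← finsum_sum_comm _ _ (fun i _ => ft_finite hp ha _)]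
  refine finsum_congr fun g => ?_
  unfold bt ft
  have e1 : Th p g ((1, 0) : RR p a).1 = th p g := by
    have : ((1, 0) : RR p a).1 = single 1 1 := rfl
    rw [this, Th_single, one_mul, inv_one, one_mul]
  rw [e1, ← count hp ha (x.2.coeff g) (y.2.coeff g) (th p g)]
  refine Finset.sum_congr rfl fun i _ => ?_
  have e2 : (x + (i : RR p a) * y).2.coeff g = x.2.coeff g + (i : ZMod (p ^ a)) * y.2.coeff g := by
    rw [Prod.snd_add, Prod.snd_mul, MonoidAlgebra.coeff_add, Finsupp.add_apply, Prod.snd_natCast,
      coeff_nat_mul]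
  rw [e2]

end

end Pool.Agent.Helper25.EMN
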