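import Pool.Agent.Helper25.EMN.Form

/-!
The form does not vanish on suitable pairs of polynomials in one lattice direction.
-/

namespace Pool.Agent.Helper25.EMN

open MonoidAlgebra

/-- the two generators of the lattice -/
def t1 : LZ := Multiplicative.ofAdd (1, 0)
def t2 : LZ := Multiplicative.ofAdd (0, 1)

theorem t1_pow (z : ℕ) : Multiplicative.toAdd (t1 ^ z) = ((z : ℤ), 0) := by
  rw [toAdd_pow, t1, toAdd_ofAdd]
  ext <;> simp

theorem t1_pow_inj {z z' : ℕ} (h : t1 ^ z = t1 ^ z') : z = z' := by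
  have h1 := congrArg (fun x => (Multiplicative.toAdd x).1) h
  simp only [t1_pow] at h1
  exact_mod_cast h1

/-- the elements of the group ring -/
noncomputable def rho (m i c : ℕ) : ℕ → GR m
  | 0 => single (t1 ^ (i + c)) 1 - single (t1 ^ i) 1
  | n + 1 => rho m i c n - single t1 1 * rho m i c n

theorem rho_eq (m i c n : ℕ) :
    (single (t1 ^ (i + c)) 1 - single (t1 ^ i) 1 : GR m) * (1 - single t1 1) ^ n = rho m i c n := by
  induction n with
  | zero => rw [pow_zero, mul_one, rho]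
  | succ n ih => rw [pow_succ, ← mul_assoc, ih, rho]; ring

theorem coeff_sub' {m : ℕ} (x y : GR m) (g : LZ) : (x - y).coeff g = x.coeff g - y.coeff g := by
  rw [MonoidAlgebra.coeff_sub]
  rfl

theorem rho_low (m i c : ℕ) (hc : 1 ≤ c) (n : ℕ) :
    (∀ g, (rho m i c n).coeff g ≠ 0 → ∃ z : ℕ, i ≤ z ∧ g = t1 ^ z) ∧
      (rho m i c n).coeff (t1 ^ i) = -1 := by
  classical
  induction n with
  | zero =>
    refine ⟨fun g hg => ?_, ?_⟩
    · rw [rho, coeff_sub', MonoidAlgebra.coeff_single, MonoidAlgebra.coeff_single,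
        Finsupp.single_apply, Finsupp.single_apply] at hg
      by_cases h1 : t1 ^ (i + c) = g
      · exact ⟨i + c, by omega, h1.symm⟩
      · by_cases h2 : t1 ^ i = g
        · exact ⟨i, le_rfl, h2.symm⟩
        · rw [if_neg h1, if_neg h2, sub_zero] at hg
          exact absurd rfl hg
    · rw [rho, coeff_sub', MonoidAlgebra.coeff_single, MonoidAlgebra.coeff_single,
        Finsupp.single_apply, Finsupp.single_apply, if_pos rfl, if_neg, zero_sub]
      intro h
      have := t1_pow_inj h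
      omega
  | succ n ih =>
    obtain ⟨h1, h2⟩ := ih
    refine ⟨fun g hg => ?_, ?_⟩
    · rw [rho, coeff_sub', coeff_single_mul_apply, one_mul] at hg
      by_cases h3 : (rho m i c n).coeff g = 0
      · rw [h3, zero_sub, neg_ne_zero] at hg
        obtain ⟨z, hz, e⟩ := h1 _ hg
        refine ⟨z + 1, by omega, ?_⟩
        rw [pow_succ', ← e, mul_inv_cancel_left]
      · exact h1 g h3
    · rw [rho, coeff_sub', coeff_single_mul_apply, one_mul, h2]
      have : (rho m i c n).coeff (t1⁻¹ * t1 ^ i) = 0 := by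
        by_contra hcon
        obtain ⟨z, hz, e⟩ := h1 _ hcon
        have e2 : t1 ^ i = t1 ^ (z + 1) := by
          rw [pow_succ', ← e, mul_inv_cancel_left]
        have := t1_pow_inj e2
        omega
      rw [this, sub_zero]

/-- evaluation of the weights on a sparse row -/
theorem th_row (p : ℕ) (hp : 2 ≤ p) (k : ℕ) (hk : 1 ≤ k) (x : ℤ) :
    th p (Multiplicative.ofAdd ((p : ℤ) ^ k + x, (p : ℤ) ^ (2 * k))) =
      if (p : ℤ) ^ (3 * k) ∣ x then 1 else 0 := by
  unfold th
  simp only [toAdd_ofAdd]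
  have := EE_row p hp k hk ((p : ℤ) ^ k + x)
  rw [add_sub_cancel_left] at this
  by_cases h : (p : ℤ) ^ (3 * k) ∣ x
  · rw [if_pos h, if_pos (this.mpr h)]
  · rw [if_neg h, if_neg (fun hh => h (this.mp hh))]

theorem nonvanish {p a : ℕ} (hp : p.Prime) (ha : 1 ≤ a) (i c n i' c' n' : ℕ) (hc : 1 ≤ c)
    (hc' : 1 ≤ c') : ∃ h : LZ, ∀ v : RR p a, v.1 = single h 1 * rho p i c n →
      v.2 = rho (p ^ a) i' c' n' → (DF hp ha).B v v ≠ 0 := by
  classical
  obtain ⟨low1, low2⟩ := rho_low p i c hc n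
  obtain ⟨low1', low2'⟩ := rho_low (p ^ a) i' c' hc' n'
  set γ := rho p i c n with hγ
  set β := rho (p ^ a) i' c' n' with hβ
  have hF1 : Fact (1 < p) := ⟨hp.one_lt⟩
  -- the largest unit coefficient of `β`
  have hne : (β.coeff.support.filter fun g => IsUnit (β.coeff g)).Nonempty := by
    refine ⟨t1 ^ i', ?_⟩
    rw [Finset.mem_filter, Finsupp.mem_support_iff, low2']
    have hu : IsUnit (-1 : ZMod (p ^ a)) := isUnit_one.neg
    refine ⟨fun h0 => ?_, hu⟩
    rw [h0] at hu
    exact not_isUnit_zero' hp ha hu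
  obtain ⟨g0, hg0, hmax⟩ := Finset.exists_max_image _ (fun g : LZ => (Multiplicative.toAdd g).1) hne
  rw [Finset.mem_filter, Finsupp.mem_support_iff] at hg0
  obtain ⟨zm, -, hzm⟩ := low1' g0 hg0.1
  have hbd : ∀ z : ℕ, IsUnit (β.coeff (t1 ^ z)) → z ≤ zm := by
    intro z hz
    have h1 : t1 ^ z ∈ β.coeff.support.filter fun g => IsUnit (β.coeff g) := by
      rw [Finset.mem_filter, Finsupp.mem_support_iff]
      refine ⟨fun h0 => ?_, hz⟩
      rw [h0] at hz
      exact not_isUnit_zero' hp ha hz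
    have h2 := hmax _ h1
    simp only [hzm, t1_pow] at h2
    exact_mod_cast h2
  -- a bound for the exponents of `γ`
  obtain ⟨N, hN⟩ : ∃ N : ℕ, ∀ z : ℕ, γ.coeff (t1 ^ z) ≠ 0 → z ≤ N := by
    have hne' : γ.coeff.support.Nonempty := by
      refine ⟨t1 ^ i, ?_⟩
      rw [Finsupp.mem_support_iff, low2]
      exact neg_ne_zero.mpr one_ne_zero
    obtain ⟨g1, hg1, hmax1⟩ := Finset.exists_max_image γ.coeff.support
      (fun g : LZ => (Multiplicative.toAdd g).1) hne'
    obtain ⟨N, -, hN⟩ := low1 g1 (Finsupp.mem_support_iff.mp hg1)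
    refine ⟨N, fun z hz => ?_⟩
    have h2 := hmax1 _ (Finsupp.mem_support_iff.mpr hz)
    simp only [hN, t1_pow] at h2
    exact_mod_cast h2
  set k := zm + N + 1 with hk
  set pt : LZ := Multiplicative.ofAdd ((p : ℤ) ^ k, (p : ℤ) ^ (2 * k)) with hpt
  have hbig : ((zm : ℤ) + N) < (p : ℤ) ^ (3 * k) := by
    have h1 : 3 * k < p ^ (3 * k) := (3 * k).lt_pow_self hp.one_lt
    have h2 : zm + N < p ^ (3 * k) := by omega
    exact_mod_cast h2
  have key : ∀ z z' : ℕ, z ≤ zm → i ≤ z' → z' ≤ N →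
      th p ((t1 ^ z')⁻¹ * (pt * t1 ^ i * (t1 ^ zm)⁻¹ * t1 ^ z)) =
        if z = zm ∧ z' = i then 1 else 0 := by
    intro z z' h1 h2 h3
    have e : (t1 ^ z')⁻¹ * (pt * t1 ^ i * (t1 ^ zm)⁻¹ * t1 ^ z) =
        Multiplicative.ofAdd ((p : ℤ) ^ k + ((i : ℤ) - z' + z - zm), (p : ℤ) ^ (2 * k)) := by
      apply Multiplicative.toAdd.injective
      simp only [toAdd_mul, toAdd_inv, t1_pow, hpt, toAdd_ofAdd]
      ext
      · simp only [Prod.fst_add, Prod.fst_neg]
        ring
      · simp
    rw [e, th_row p hp.two_le k (by omega)]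
    by_cases hh : z = zm ∧ z' = i
    · rw [if_pos hh, if_pos]
      have : (i : ℤ) - z' + z - zm = 0 := by
        rw [hh.1, hh.2]; ring
      rw [this]
      exact dvd_zero _
    · rw [if_neg hh, if_neg]
      intro hd
      apply hh
      have h0 : (i : ℤ) - z' + z - zm = 0 := by
        apply Int.eq_zero_of_abs_lt_dvd hd
        rw [abs_lt]
        constructor <;> omega
      constructor <;> omega
  refine ⟨(pt * t1 ^ i * (t1 ^ zm)⁻¹)⁻¹, fun v hv1 hv2 => ?_⟩
  rw [DF_B]
  have hterm : ∀ z : ℕ, z ≤ zm → Th p (t1 ^ z) v.1 = if z = zm then -1 else 0 := by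
    intro z hz
    rw [hv1, Th_mul, inv_inv, Th_apply]
    by_cases hzz : z = zm
    · rw [if_pos hzz, Finset.sum_eq_single (t1 ^ i)]
      · rw [low2, key z i hz le_rfl (hN i (by rw [low2]; exact neg_ne_zero.mpr one_ne_zero)),
          if_pos ⟨hzz, rfl⟩, mul_one]
      · intro g hg hgi
        rw [Finsupp.mem_support_iff] at hg
        obtain ⟨z', hz', rfl⟩ := low1 g hg
        rw [key z z' hz hz' (hN z' hg), if_neg, mul_zero]
        rintro ⟨-, rfl⟩
        exact hgi rfl
      · intro h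
        exfalso
        apply h
        rw [Finsupp.mem_support_iff, low2]
        exact neg_ne_zero.mpr one_ne_zero
    · rw [if_neg hzz]
      refine Finset.sum_eq_zero fun g hg => ?_
      rw [Finsupp.mem_support_iff] at hg
      obtain ⟨z', hz', rfl⟩ := low1 g hg
      rw [key z z' hz hz' (hN z' hg), if_neg, mul_zero]
      rintro ⟨h, -⟩
      exact hzz h
  rw [finsum_eq_single _ (t1 ^ zm)]
  · unfold bt
    rw [hv2, ← hzm, if_pos hg0.2, hzm, hterm zm le_rfl, if_pos rfl]
    exact neg_ne_zero.mpr one_ne_zero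
  · intro g hg
    unfold bt
    rw [hv2]
    split_ifs with hu
    · have hne0 : β.coeff g ≠ 0 := by
        intro h0
        rw [h0] at hu
        exact not_isUnit_zero' hp ha hu
      obtain ⟨z, -, rfl⟩ := low1' g hne0
      rw [hterm z (hbd z hu), if_neg]
      intro h
      exact hg (by rw [h])
    · rfl

end Pool.Agent.Helper25.EMN
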