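import Pool.Agent.Helper25.EMN.Grp

/-!
Negative part: a normal subgroup of suitable exponent with finite-by-nilpotent quotient forces the
form to vanish on certain elements.
-/

namespace Pool.Agent.Helper25.EMN

namespace W

variable {Q R : Type} [CommGroup Q] [CommRing R] {T : Q →* R} {p : ℕ}

section

variable {Γ : Type} [Group Γ] (φ : Γ →* W T p)

/-- iterated commutators -/
def itc (e t : Γ) : ℕ → Γ
  | 0 => e
  | n + 1 => itc e t n * t * (itc e t n)⁻¹ * t⁻¹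

theorem itc_q (e t : Γ) (he : (φ e).q = 1) (n : ℕ) : (φ (itc e t n)).q = 1 := by
  cases n with
  | zero => exact he
  | succ n =>
    rw [itc]
    simp only [map_mul, map_inv]
    exact comm_q _ _

theorem itc_v (e t : Γ) (he : (φ e).q = 1) (n : ℕ) :
    (φ (itc e t n)).v = (1 - T (φ t).q) ^ n * (φ e).v := by
  induction n with
  | zero => simp [itc]
  | succ n ih =>
    rw [itc]
    simp only [map_mul, map_inv]
    rw [comm_v _ _ (itc_q φ e t he n), ih]; ring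

theorem itc_mem_lcs {N : Type} [Group N] (f : Γ →* N) (e t : Γ) (n : ℕ) :
    f (itc e t n) ∈ Subgroup.lowerCentralSeries (⊤ : Subgroup N) n := by
  induction n with
  | zero => simp
  | succ n ih =>
    rw [itc, Subgroup.lowerCentralSeries_succ]
    have : f (itc e t n * t * (itc e t n)⁻¹ * t⁻¹) =
      f (itc e t n) * f t * (f (itc e t n))⁻¹ * (f t)⁻¹ := by simp
    rw [this]
    exact Subgroup.commutator_mem_commutator ih (Subgroup.mem_top _)

theorem exists_mem (L : Subgroup Γ) [L.Normal] (F : Subgroup (Γ ⧸ L)) [F.Normal] [Finite F]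
    (hN : Group.IsNilpotent ((Γ ⧸ L) ⧸ F)) (e t : Γ) (he : (φ e).q = 1) :
    ∃ n i c : ℕ, 1 ≤ c ∧ ∃ l ∈ L, (φ l).q = 1 ∧
      (φ l).v = (T ((φ t).q ^ (i + c)) - T ((φ t).q ^ i)) * ((1 - T (φ t).q) ^ n * (φ e).v) := by
  obtain ⟨n, hn⟩ := Subgroup.nilpotent_iff_lowerCentralSeries.mp hN
  set s := itc e t n with hs
  have hsF : QuotientGroup.mk' L s ∈ F := by
    have h1 := itc_mem_lcs ((QuotientGroup.mk' F).comp (QuotientGroup.mk' L)) e t n
    rw [hn, Subgroup.mem_bot] at h1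
    rw [MonoidHom.comp_apply] at h1
    rwa [QuotientGroup.mk'_apply (N := F), QuotientGroup.eq_one_iff] at h1
  have hsv : (φ s).v = (1 - T (φ t).q) ^ n * (φ e).v := itc_v φ e t he n
  have hsq : (φ s).q = 1 := itc_q φ e t he n
  -- pigeonhole
  let f : ℕ → F := fun i => ⟨QuotientGroup.mk' L (t ^ i * s * (t ^ i)⁻¹), by
    rw [map_mul, map_mul, map_inv]
    exact Subgroup.Normal.conj_mem inferInstance _ hsF _⟩
  obtain ⟨i, j, hij, hfij⟩ : ∃ i j : ℕ, i < j ∧ f i = f j := by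
    obtain ⟨i, j, hne, he⟩ := Finite.exists_ne_map_eq_of_infinite f
    rcases lt_or_gt_of_ne hne with h | h
    · exact ⟨i, j, h, he⟩
    · exact ⟨j, i, h, he.symm⟩
  have hl := congrArg Subtype.val hfij
  simp only [f] at hl
  rw [QuotientGroup.mk'_apply, QuotientGroup.mk'_apply, QuotientGroup.eq] at hl
  set l := (t ^ i * s * (t ^ i)⁻¹)⁻¹ * (t ^ j * s * (t ^ j)⁻¹) with hldef
  have hti : ∀ i : ℕ, (φ t ^ i).q = (φ t).q ^ i := by
    intro i
    have := zpow_q (φ t) (i : ℤ)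
    simpa using this
  have hlq : (φ l).q = 1 := by
    rw [hldef]
    simp only [map_mul, map_inv, map_pow]
    rw [mul_q, inv_q, conj_q _ _ hsq, conj_q _ _ hsq]; simp
  have hlv : (φ l).v = (T ((φ t).q ^ j) - T ((φ t).q ^ i)) * (φ s).v := by
    rw [hldef]
    simp only [map_mul, map_inv, map_pow]
    rw [mul_v, inv_v, inv_q, conj_q _ _ hsq, conj_v _ _ hsq, conj_v _ _ hsq, hti, hti]
    simp only [inv_one, map_one, one_mul, map_pow]
    ring
  obtain ⟨c, hc, rfl⟩ : ∃ c : ℕ, 1 ≤ c ∧ j = i + c := ⟨j - i, by omega, by omega⟩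
  exact ⟨n, i, c, hc, l, hl, hlq, by rw [hlv, hsv]⟩

theorem main_neg {D : Fm T p} {n : ℕ} (hn : (n : R) = 0) (hS : ∀ g, φ g ∈ Sy D n)
    {m : ℕ} (hm : Nat.gcd m (n * p) = n)
    (L : Subgroup Γ) [L.Normal] (hL : ∀ g ∈ L, g ^ m = 1)
    (F : Subgroup (Γ ⧸ L)) [F.Normal] [Finite F] (hN : Group.IsNilpotent ((Γ ⧸ L) ⧸ F))
    (e e' t : Γ) (he : (φ e).q = 1) (he' : (φ e').q = 1) :
    ∃ n i c n' i' c' : ℕ, 1 ≤ c ∧ 1 ≤ c' ∧ ∀ h : Γ, ∀ v : R,
      v = T (φ h).q *
        ((T ((φ t).q ^ (i + c)) - T ((φ t).q ^ i)) * ((1 - T (φ t).q) ^ n * (φ e).v)) +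
        (T ((φ t).q ^ (i' + c')) - T ((φ t).q ^ i')) * ((1 - T (φ t).q) ^ n' * (φ e').v) →
      D.B v v = 0 := by
  obtain ⟨n1, i, c, hc, l, hl, hlq, hlv⟩ := exists_mem φ L F hN e t he
  obtain ⟨n', i', c', hc', l', hl', hlq', hlv'⟩ := exists_mem φ L F hN e' t he'
  refine ⟨n1, i, c, n', i', c', hc, hc', fun h v hv => ?_⟩
  have hmem : h * l * h⁻¹ * l' ∈ L :=
    L.mul_mem (Subgroup.Normal.conj_mem inferInstance _ hl _) hl'
  have hq : (φ (h * l * h⁻¹ * l')).q = 1 := by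
    simp only [map_mul, map_inv]
    rw [mul_q, conj_q _ _ hlq, hlq', one_mul]
  have hvv : (φ (h * l * h⁻¹ * l')).v = v := by
    rw [hv]
    simp only [map_mul, map_inv]
    rw [mul_v, conj_q _ _ hlq, conj_v _ _ hlq, hlv, hlv', map_one, one_mul]
  have := B_of_pow hn (hS (h * l * h⁻¹ * l')) hq hm
    (by rw [← map_pow, hL _ hmem, map_one])
  rwa [hvv] at this

end

end W

end Pool.Agent.Helper25.EMN
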