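import Pool.Agent.Helper25.EMN.Line
import Pool.Agent.Helper25.EMN.Low
import Pool.Agent.Helper25.EMN.Neg

/-!
The finitely generated soluble groups.
-/

namespace Pool.Agent.Helper25.EMN

open MonoidAlgebra

section

variable {Q R : Type} [CommGroup Q] [CommRing R] {T : Q →* R} {p : ℕ}

theorem W.solvable : Group.IsSolvable (W T p) := by
  refine Group.isSolvable_of_ker_le_range (G' := (W.toQ T p).ker) (G'' := Q)
    (Subgroup.subtype _) (W.toQ T p) (by simp) (hG' := ?_)
  let f : (W.toQ T p).ker →* Multiplicative R :=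
    { toFun := fun g => Multiplicative.ofAdd g.1.v
      map_one' := rfl
      map_mul' := by
        rintro ⟨a, ha⟩ ⟨b, hb⟩
        have ha' : a.q = 1 := ha
        apply Multiplicative.toAdd.injective
        simp [ha'] }
  refine Group.isSolvable_of_ker_le_range (G' := f.ker) (G'' := Multiplicative R)
    (Subgroup.subtype _) f (by simp) (hG' := ?_)
  refine Group.isSolvable_of_comm ?_
  rintro ⟨⟨a, ha⟩, ha2⟩ ⟨⟨b, hb⟩, hb2⟩
  have ha' : a.q = 1 := ha
  have hb' : b.q = 1 := hb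
  have ha3 : a.v = 0 := ha2
  have hb3 : b.v = 0 := hb2
  ext1; ext1
  change a * b = b * a
  ext x
  · simp [ha', hb', ha3, hb3, add_comm]
  · simp [ha3, hb3]
  · simp [ha', hb']

end

section

variable {p a : ℕ} (hp : p.Prime) (ha : 1 ≤ a)

theorem LZ_gen (q : LZ) : q = t1 ^ (Multiplicative.toAdd q).1 * t2 ^ (Multiplicative.toAdd q).2 := by
  apply Multiplicative.toAdd.injective
  simp only [t1, t2, toAdd_mul, toAdd_zpow, toAdd_ofAdd]
  ext <;> simp

/-- the first generator -/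
noncomputable def al (p a : ℕ) : W (TT p a) p := ⟨f0, (1, 0), 1⟩

/-- the second generator -/
noncomputable def de (p a : ℕ) : W (TT p a) p := ⟨0, (0, 1), 1⟩

/-- the generators -/
noncomputable def gens (p a : ℕ) : Set (W (TT p a) p) :=
  {al p a, de p a, W.inQ (TT p a) p t1, W.inQ (TT p a) p t2}

/-- the group -/
noncomputable def GG (p a : ℕ) : Subgroup (W (TT p a) p) := Subgroup.closure (gens p a)

theorem cast_zero (p a : ℕ) (ha : 1 ≤ a) : ((p ^ a : ℕ) : RR p a) = 0 := by
  apply Prod.ext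
  · rw [Prod.fst_natCast, Nat.cast_pow, ← map_natCast (algebraMap (ZMod p) (GR p)) p,
      ZMod.natCast_self, map_zero, zero_pow (by omega)]
    rfl
  · rw [Prod.snd_natCast, ← map_natCast (algebraMap (ZMod (p ^ a)) (GR (p ^ a))) (p ^ a),
      ZMod.natCast_self, map_zero]
    rfl

theorem BB_zero_fst (v y : RR p a) (hv : v.1 = 0) : (DF hp ha).B v y = 0 := by
  rw [DF_B, ← finsum_zero]
  refine finsum_congr fun g => ?_
  unfold bt
  rw [hv, map_zero]
  split_ifs <;> rfl

theorem GG_le : GG p a ≤ W.Sy (DF hp ha) (p ^ a) := by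
  unfold GG gens
  rw [Subgroup.closure_le]
  intro g hg
  simp only [Set.mem_insert_iff, Set.mem_singleton_iff] at hg
  rw [SetLike.mem_coe, W.mem_Sy]
  intro x y
  rcases hg with rfl | rfl | rfl | rfl
  · exact f0_sum hp ha x y
  · rw [BB_zero_fst hp ha _ _ rfl]
    exact Finset.sum_eq_zero fun _ _ => rfl
  · rw [BB_zero_fst hp ha _ _ rfl]
    exact Finset.sum_eq_zero fun _ _ => rfl
  · rw [BB_zero_fst hp ha _ _ rfl]
    exact Finset.sum_eq_zero fun _ _ => rfl

theorem inQ_mem (q : LZ) : W.inQ (TT p a) p q ∈ GG p a := by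
  rw [LZ_gen q, map_mul, map_zpow, map_zpow]
  refine Subgroup.mul_mem _ (Subgroup.zpow_mem _ (Subgroup.subset_closure ?_) _)
    (Subgroup.zpow_mem _ (Subgroup.subset_closure ?_) _)
  · simp [gens]
  · simp [gens]

theorem main (hp : p.Prime) (ha : 1 ≤ a) : ∃ (G : Type) (_ : Group G),
    Group.FG G ∧ Group.IsSolvable G ∧
    (∀ x y : G, ∃ (K : Subgroup (Subgroup.closure ({x, y⁻¹ * x * y} : Set G))) (_ : K.Normal),
      (∀ g : K, g ^ (p ^ a) = 1) ∧
        Group.IsNilpotent ((Subgroup.closure ({x, y⁻¹ * x * y} : Set G)) ⧸ K)) ∧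
    ∀ m : ℕ, Nat.gcd m (p ^ a * p) = p ^ a → ∀ (L : Subgroup G) [L.Normal],
      (∀ g ∈ L, g ^ m = 1) → ∀ (F : Subgroup (G ⧸ L)) [F.Normal] [Finite F],
        ¬ Group.IsNilpotent ((G ⧸ L) ⧸ F) := by
  have hz := cast_zero p a ha
  have hz' : (p : RR p a) ^ a = 0 := by rw [← Nat.cast_pow, hz]
  have hS : ∀ g : GG p a, (GG p a).subtype g ∈ W.Sy (DF hp ha) (p ^ a) :=
    fun g => GG_le hp ha g.2
  refine ⟨GG p a, inferInstance, ?_, ?_, ?_, ?_⟩
  · unfold GG
    have : Finite (gens p a) := by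
      unfold gens
      exact Set.Finite.to_subtype (by simp)
    rw [Group.fg_iff_subgroup_fg]
    exact (Subgroup.fg_iff _).mpr ⟨gens p a, rfl, Set.toFinite _⟩
  · have := W.solvable (T := TT p a) (p := p)
    infer_instance
  · intro x y
    have hq : ((GG p a).subtype (y⁻¹ * x * y)).q = ((GG p a).subtype x).q := by
      simp only [map_mul, map_inv, W.mul_q, W.inv_q]
      rw [mul_comm (((GG p a).subtype y).q)⁻¹, inv_mul_cancel_right]
    obtain ⟨k, hk⟩ := vanish hp ha ((GG p a).subtype (x⁻¹ * (y⁻¹ * x * y))).v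
      ((GG p a).subtype x).q
    exact W.main_pos (GG p a).subtype (Subgroup.subtype_injective _) hp hz hS hz' x
      (y⁻¹ * x * y) hq k hk
  · intro m hm L _ hL F _ _ hN
    have hal : al p a ∈ GG p a := Subgroup.subset_closure (by simp [gens])
    have hde : de p a ∈ GG p a := Subgroup.subset_closure (by simp [gens])
    obtain ⟨n, i, c, n', i', c', hc, hc', hB⟩ := W.main_neg (GG p a).subtype hz hS hm L hL F hN
      ⟨al p a, hal⟩ ⟨de p a, hde⟩ ⟨W.inQ (TT p a) p t1, inQ_mem t1⟩ rfl rfl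
    obtain ⟨h, hh⟩ := nonvanish hp ha i c n i' c' n' hc hc'
    refine hh _ ?_ ?_ (hB ⟨W.inQ (TT p a) p h, inQ_mem h⟩ _ rfl)
    · simp only [Subgroup.subtype_apply, W.inQ_q, Prod.fst_add, Prod.fst_mul, Prod.fst_sub,
        TT_fst, Prod.pow_fst, Prod.fst_one]
      have e1 : (al p a).v.1 = 1 := rfl
      have e2 : (de p a).v.1 = 0 := rfl
      rw [e1, e2, mul_one, mul_zero, mul_zero, add_zero, rho_eq]
    · simp only [Subgroup.subtype_apply, W.inQ_q, Prod.snd_add, Prod.snd_mul, Prod.snd_sub,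
        TT_snd, Prod.pow_snd, Prod.snd_one]
      have e1 : (al p a).v.2 = 0 := rfl
      have e2 : (de p a).v.2 = 1 := rfl
      rw [e1, e2, mul_one, mul_zero, mul_zero, mul_zero, zero_add, rho_eq]

end

end Pool.Agent.Helper25.EMN
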