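import Pool.Agent.Helper25.EMN.Grp

/-!
Positive part: if the form vanishes on certain multiples, every subgroup generated by two elements
with the same image in `Q` has a normal subgroup of exponent dividing `n` with nilpotent quotient.
-/

namespace Pool.Agent.Helper25.EMN

namespace W

variable {Q R : Type} [CommGroup Q] [CommRing R] {T : Q →* R} {p : ℕ}

/-- the subring generated by the powers of a unit -/
def SS (T : Q →* R) (q : Q) : Subring R :=
  Subring.closure (Set.range fun n : ℤ => T (q ^ n))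

theorem T_mem (q : Q) (n : ℤ) : T (q ^ n) ∈ SS T q := Subring.subset_closure ⟨n, rfl⟩

theorem T_mem1 (q : Q) : T q ∈ SS T q := by
  have := T_mem (T := T) q 1
  simpa using this

theorem T_sub_one (q : Q) (n : ℤ) : ∃ s ∈ SS T q, T (q ^ n) - 1 = (T q - 1) * s := by
  induction n using Int.induction_on with
  | zero => exact ⟨0, (SS T q).zero_mem, by simp⟩
  | succ n ih =>
    obtain ⟨s, hs, e⟩ := ih
    refine ⟨T (q ^ (n : ℤ)) + s, (SS T q).add_mem (T_mem q _) hs, ?_⟩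
    have : T (q ^ ((n : ℤ) + 1)) = T (q ^ (n : ℤ)) * T q := by
      rw [← map_mul, zpow_add_one]
    rw [this]
    linear_combination e
  | pred n ih =>
    obtain ⟨s, hs, e⟩ := ih
    refine ⟨s - T (q ^ (-(n : ℤ) - 1)), (SS T q).sub_mem hs (T_mem q _), ?_⟩
    have : T (q ^ (-(n : ℤ))) = T (q ^ (-(n : ℤ) - 1)) * T q := by
      rw [← map_mul, ← zpow_add_one]; congr 2; ring
    rw [mul_sub, ← e, this]; ring

theorem pow_mem (hp : p.Prime) (q : Q) (k a : ℕ) (hpa : (p : R) ^ a = 0) :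
    ∃ s ∈ SS T q, (T q - 1) ^ (p ^ k * a) = (T (q ^ (p ^ k)) - 1) * s := by
  set t : SS T q := ⟨T q, T_mem1 q⟩ with ht
  obtain ⟨r1, hr⟩ := exists_add_pow_prime_pow_eq hp (t - 1) 1 k
  rw [sub_add_cancel, one_pow] at hr
  set r : SS T q := (t - 1) * r1 with hrd
  have h1 : (t - 1) ^ p ^ k = (t ^ p ^ k - 1) - (p : SS T q) * r := by
    rw [hrd]
    linear_combination -hr
  obtain ⟨s, hs⟩ := sub_dvd_pow_sub_pow ((t ^ p ^ k - 1) - (p : SS T q) * r) (-((p : SS T q) * r)) a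
  have h0 : (-((p : SS T q) * r)) ^ a = 0 := by
    have hz : (p : SS T q) ^ a = 0 := by
      apply Subtype.ext
      push_cast
      exact hpa
    rw [neg_pow, mul_pow, hz, zero_mul, mul_zero]
  have h2 : (t - 1) ^ (p ^ k * a) = (t ^ p ^ k - 1) * s := by
    rw [pow_mul, h1]
    rw [h0, sub_zero] at hs
    rw [hs]
    ring
  refine ⟨s, s.2, ?_⟩
  have h3 := congrArg (Subtype.val) h2
  push_cast at h3
  rw [ht] at h3
  simp only at h3
  rw [map_pow]
  exact h3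

/-- the descending family of subgroups -/
def DD (T : Q →* R) (p : ℕ) (q : Q) (w : R) (j : ℕ) : Subgroup (W T p) where
  carrier := {g | g.q = 1 ∧ ∃ r ∈ SS T q, g.v = (T q - 1) ^ j * (r * w)}
  one_mem' := ⟨rfl, 0, (SS T q).zero_mem, by simp⟩
  mul_mem' := by
    rintro a b ⟨ha, r, hr, ea⟩ ⟨hb, s, hs, eb⟩
    refine ⟨by simp [ha, hb], r + s, (SS T q).add_mem hr hs, ?_⟩
    rw [mul_v, ha, map_one, one_mul, ea, eb]; ring
  inv_mem' := by
    rintro a ⟨ha, r, hr, ea⟩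
    refine ⟨by simp [ha], -r, (SS T q).neg_mem hr, ?_⟩
    rw [inv_v, ha, inv_one, map_one, one_mul, ea]; ring

theorem mem_DD {q : Q} {w : R} {j : ℕ} {g : W T p} :
    g ∈ DD T p q w j ↔ g.q = 1 ∧ ∃ r ∈ SS T q, g.v = (T q - 1) ^ j * (r * w) := Iff.rfl

/-- the subgroup of multiples of `T (q ^ M) - 1` -/
def DE (T : Q →* R) (p : ℕ) (q : Q) (w : R) (M : ℕ) : Subgroup (W T p) where
  carrier := {g | g.q = 1 ∧ ∃ r ∈ SS T q, g.v = (T (q ^ M) - 1) * (r * w)}
  one_mem' := ⟨rfl, 0, (SS T q).zero_mem, by simp⟩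
  mul_mem' := by
    rintro a b ⟨ha, r, hr, ea⟩ ⟨hb, s, hs, eb⟩
    refine ⟨by simp [ha, hb], r + s, (SS T q).add_mem hr hs, ?_⟩
    rw [mul_v, ha, map_one, one_mul, ea, eb]; ring
  inv_mem' := by
    rintro a ⟨ha, r, hr, ea⟩
    refine ⟨by simp [ha], -r, (SS T q).neg_mem hr, ?_⟩
    rw [inv_v, ha, inv_one, map_one, one_mul, ea]; ring

theorem mem_DE {q : Q} {w : R} {M : ℕ} {g : W T p} :
    g ∈ DE T p q w M ↔ g.q = 1 ∧ ∃ r ∈ SS T q, g.v = (T (q ^ M) - 1) * (r * w) := Iff.rfl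

section

variable {Γ : Type} [Group Γ] (φ : Γ →* W T p)

/-- the members of the subgroup generated by `x` and `x'` -/
theorem good_of_mem (x x' : Γ) (hq : (φ x').q = (φ x).q) {h : Γ}
    (hh : h ∈ Subgroup.closure ({x, x'} : Set Γ)) :
    ∃ n : ℤ, (φ h).q = (φ x).q ^ n ∧ ∃ r ∈ SS T (φ x).q,
      (φ h).v = (φ x ^ n).v + r * (φ (x⁻¹ * x')).v := by
  induction hh using Subgroup.closure_induction with
  | mem a ha =>
    rcases ha with rfl | ha
    · exact ⟨1, by simp, 0, (SS T _).zero_mem, by simp⟩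
    · rw [Set.mem_singleton_iff] at ha
      subst ha
      refine ⟨1, by simp [hq], T ((φ x).q ^ (1 : ℤ)), T_mem _ _, ?_⟩
      simp only [map_mul, map_inv, zpow_one, mul_v, inv_v, inv_q]
      linear_combination ((φ x).v - (φ a).v) * T_inv' T (φ x).q
  | one => exact ⟨0, by simp, 0, (SS T _).zero_mem, by simp⟩
  | mul a b _ _ ha hb =>
    obtain ⟨n, hn, r, hr, er⟩ := ha
    obtain ⟨m, hm, s, hs, es⟩ := hb
    refine ⟨n + m, by rw [map_mul, mul_q, hn, hm, zpow_add], r + T ((φ x).q ^ n) * s,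
      (SS T _).add_mem hr ((SS T _).mul_mem (T_mem _ _) hs), ?_⟩
    rw [map_mul, mul_v (φ a) (φ b), er, es, hn, zpow_add, mul_v (φ x ^ n) (φ x ^ m), zpow_q]; ring
  | inv a _ ha =>
    obtain ⟨n, hn, r, hr, er⟩ := ha
    refine ⟨-n, by rw [map_inv, inv_q, hn, zpow_neg], -(T ((φ x).q ^ (-n)) * r),
      (SS T _).neg_mem ((SS T _).mul_mem (T_mem _ _) hr), ?_⟩
    rw [map_inv, inv_v, er, hn, zpow_neg, inv_v, zpow_q, zpow_neg]; ring

theorem main_pos (hφ : Function.Injective φ) (hp : p.Prime) {D : Fm T p} {n : ℕ}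
    (hn : (n : R) = 0) (hS : ∀ g, φ g ∈ Sy D n) {a : ℕ} (hpa : (p : R) ^ a = 0)
    (x x' : Γ) (hq : (φ x').q = (φ x).q) (k : ℕ)
    (hB : ∀ r ∈ SS T (φ x).q,
      D.B ((T ((φ x).q ^ (p ^ k)) - 1) * (r * (φ (x⁻¹ * x')).v))
        ((T ((φ x).q ^ (p ^ k)) - 1) * (r * (φ (x⁻¹ * x')).v)) = 0) :
    ∃ (K : Subgroup (Subgroup.closure ({x, x'} : Set Γ))) (_ : K.Normal),
      (∀ g : K, g ^ n = 1) ∧ Group.IsNilpotent ((Subgroup.closure ({x, x'} : Set Γ)) ⧸ K) := by
  set H := Subgroup.closure ({x, x'} : Set Γ) with hH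
  set w := (φ (x⁻¹ * x')).v with hw
  set q := (φ x).q with hqd
  set E : Subgroup H := ((DE T p q w (p ^ k)).comap φ).subgroupOf H with hE
  have hEn : E.Normal := by
    constructor
    intro d hd g
    rw [hE, Subgroup.mem_subgroupOf, Subgroup.mem_comap] at hd ⊢
    obtain ⟨n, hn, -⟩ := good_of_mem φ x x' hq g.2
    obtain ⟨hd1, r, hr, er⟩ := mem_DE.mp hd
    have e : φ ((g * d * g⁻¹ : H) : Γ) = φ (g : Γ) * φ (d : Γ) * (φ (g : Γ))⁻¹ := by
      push_cast
      rw [map_mul, map_mul, map_inv]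
    rw [e]
    refine mem_DE.mpr ⟨conj_q _ _ hd1, T (q ^ n) * r, (SS T _).mul_mem (T_mem _ _) hr, ?_⟩
    rw [conj_v _ _ hd1, hn, er]; ring
  have hnormD : ∀ j : ℕ, ∀ g ∈ H, ∀ d : Γ, φ d ∈ DD T p q w j →
      φ (d * g * d⁻¹ * g⁻¹) ∈ DD T p q w (j + 1) := by
    intro j g hg d hd
    obtain ⟨h1, r, hr, er⟩ := mem_DD.mp hd
    obtain ⟨m, hm, -⟩ := good_of_mem φ x x' hq hg
    obtain ⟨s, hs, es⟩ := T_sub_one (T := T) q m
    simp only [map_mul, map_inv]
    refine mem_DD.mpr ⟨comm_q _ _, -(s * r), (SS T _).neg_mem ((SS T _).mul_mem hs hr), ?_⟩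
    rw [comm_v _ _ h1, hm, er]
    linear_combination (-((T q - 1) ^ j * (r * w))) * es
  obtain ⟨s0, hs0, es0⟩ := pow_mem (T := T) hp q k a hpa
  have hDE : ∀ g : W T p, g ∈ DD T p q w (p ^ k * a) → g ∈ DE T p q w (p ^ k) := by
    rintro g ⟨h1, r, hr, er⟩
    refine ⟨h1, s0 * r, (SS T _).mul_mem hs0 hr, ?_⟩
    rw [er, es0]; ring
  refine ⟨E, hEn, ?_, ?_⟩
  · rintro ⟨⟨g, hg⟩, hgE⟩
    rw [hE, Subgroup.mem_subgroupOf, Subgroup.mem_comap] at hgE
    obtain ⟨h1, r, hr, er⟩ := mem_DE.mp hgE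
    simp only at h1 er
    have : g ^ n = 1 := by
      apply hφ
      rw [map_pow, map_one, pow_n hn (hS g) h1, er, hB r hr]
      rfl
    ext1; ext1
    exact this
  · rw [Subgroup.nilpotent_iff_finite_descending_central_series]
    refine ⟨p ^ k * a + 1, fun j => match j with
      | 0 => ⊤
      | j + 1 => (((DD T p q w j).comap φ).subgroupOf H).map (QuotientGroup.mk' E), ⟨rfl, ?_⟩, ?_⟩
    · intro b n hb g
      obtain ⟨b, rfl⟩ := QuotientGroup.mk'_surjective E b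
      obtain ⟨g, rfl⟩ := QuotientGroup.mk'_surjective E g
      cases n with
      | zero =>
        refine ⟨b * g * b⁻¹ * g⁻¹, ?_, by simp only [map_mul, map_inv]; rfl⟩
        simp only [SetLike.mem_coe]
        rw [Subgroup.mem_subgroupOf, Subgroup.mem_comap]
        obtain ⟨b, hb'⟩ := b
        obtain ⟨g, hg'⟩ := g
        obtain ⟨n, hn, r, hr, er⟩ := good_of_mem φ x x' hq hb'
        obtain ⟨m, hm, s, hs, es⟩ := good_of_mem φ x x' hq hg'
        have e0 : φ (((⟨b, hb'⟩ : H) * ⟨g, hg'⟩ * (⟨b, hb'⟩ : H)⁻¹ * (⟨g, hg'⟩ : H)⁻¹ : H) : Γ) =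
            φ b * φ g * (φ b)⁻¹ * (φ g)⁻¹ := by
          push_cast
          simp only [map_mul, map_inv]
        rw [e0]
        refine mem_DD.mpr ⟨comm_q _ _, r - T (q ^ m) * r - (s - T (q ^ n) * s), ?_, ?_⟩
        · exact (SS T _).sub_mem ((SS T _).sub_mem hr ((SS T _).mul_mem (T_mem _ _) hr))
            ((SS T _).sub_mem hs ((SS T _).mul_mem (T_mem _ _) hs))
        · rw [comm_v', er, es, hn, hm, pow_zero, one_mul]
          have hc : (φ x ^ n * φ x ^ m).v = (φ x ^ m * φ x ^ n).v := by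
            rw [← zpow_add, ← zpow_add, add_comm]
          rw [mul_v, mul_v, zpow_q, zpow_q] at hc
          linear_combination hc
      | succ j =>
        obtain ⟨d, hd, e⟩ := hb
        rw [← e]
        refine ⟨d * g * d⁻¹ * g⁻¹, ?_, by simp only [map_mul, map_inv]; rfl⟩
        simp only [SetLike.mem_coe] at hd ⊢
        rw [Subgroup.mem_subgroupOf, Subgroup.mem_comap] at hd ⊢
        exact hnormD j g.1 g.2 d.1 hd
    · simp only
      rw [eq_bot_iff]
      rintro y ⟨d, hd, rfl⟩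
      rw [Subgroup.mem_bot, QuotientGroup.mk'_apply, QuotientGroup.eq_one_iff, hE,
        Subgroup.mem_subgroupOf, Subgroup.mem_comap]
      exact hDE _ hd

end

end W

end Pool.Agent.Helper25.EMN
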