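import Pool.Agent.Helper25.EMN.Form
import Pool.Agent.Helper25.EMN.Pos

/-!
The form vanishes on the multiples of `T (q ^ M) - 1`, `M` a large power of `p`.
-/

namespace Pool.Agent.Helper25.EMN

open MonoidAlgebra

theorem th_line (p : ℕ) (hp : 2 ≤ p) (g q : LZ) : ∃ K : ℕ, ∀ K' : ℕ, K ≤ K' → ∀ n : ℤ,
    th p (g * q ^ (n + (p : ℤ) ^ K')) = th p (g * q ^ n) := by
  obtain ⟨K, hK⟩ := EE_line p hp (Multiplicative.toAdd g).1 (Multiplicative.toAdd g).2
    (Multiplicative.toAdd q).1 (Multiplicative.toAdd q).2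
  refine ⟨K, fun K' hK' n => ?_⟩
  have := hK K' hK' n
  unfold th
  simp only [toAdd_mul, toAdd_zpow, Prod.fst_add, Prod.snd_add, Prod.smul_fst, Prod.smul_snd,
    smul_eq_mul]
  by_cases h : EE p ((Multiplicative.toAdd g).1 + n * (Multiplicative.toAdd q).1)
      ((Multiplicative.toAdd g).2 + n * (Multiplicative.toAdd q).2)
  · rw [if_pos h, if_pos (this.mpr h)]
  · rw [if_neg h, if_neg (fun hh => h (this.mp hh))]

theorem Th_line (p : ℕ) (hp : 2 ≤ p) (c : GR p) (g q : LZ) : ∃ K : ℕ, ∀ K' : ℕ, K ≤ K' → ∀ n : ℤ,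
    Th p (q ^ n * g) ((single (q ^ (p ^ K')) 1 - 1) * c) = 0 := by
  induction c using MonoidAlgebra.induction_linear with
  | zero => exact ⟨0, fun K' _ n => by rw [mul_zero, map_zero]⟩
  | add x y hx hy =>
    obtain ⟨K1, h1⟩ := hx
    obtain ⟨K2, h2⟩ := hy
    refine ⟨max K1 K2, fun K' hK' n => ?_⟩
    rw [mul_add, map_add, h1 K' (le_trans (le_max_left _ _) hK'),
      h2 K' (le_trans (le_max_right _ _) hK'), add_zero]
  | single h r =>
    obtain ⟨K, hK⟩ := th_line p hp (h⁻¹ * g) q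
    refine ⟨K, fun K' hK' n => ?_⟩
    rw [sub_mul, one_mul, map_sub, Th_mul, Th_single, Th_single]
    have h1 := hK K' hK' (n - (p : ℤ) ^ K')
    rw [sub_add_cancel] at h1
    have e1 : h⁻¹ * (q ^ n * g) = h⁻¹ * g * q ^ n := by
      rw [mul_comm (q ^ n) g, mul_assoc]
    have e2 : h⁻¹ * ((q ^ (p ^ K'))⁻¹ * (q ^ n * g)) = h⁻¹ * g * q ^ (n - (p : ℤ) ^ K') := by
      rw [zpow_sub]
      have e3 : q ^ ((p : ℤ) ^ K') = q ^ (p ^ K') := by
        rw [← zpow_natCast]
        push_cast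
        rfl
      rw [e3, mul_comm (q ^ n) g, mul_comm (q ^ (p ^ K'))⁻¹ (g * q ^ n), mul_assoc g, ← mul_assoc h⁻¹]
    rw [e1, e2, h1, sub_self]

theorem Th_line_finset (p : ℕ) (hp : 2 ≤ p) (c : GR p) (s : Finset LZ) (q : LZ) :
    ∃ K : ℕ, ∀ K' : ℕ, K ≤ K' → ∀ g ∈ s, ∀ n : ℤ,
      Th p (q ^ n * g) ((single (q ^ (p ^ K')) 1 - 1) * c) = 0 := by
  classical
  induction s using Finset.induction_on with
  | empty => exact ⟨0, fun K' _ g hg => by simp at hg⟩
  | insert a s _ ih =>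
    obtain ⟨K1, h1⟩ := ih
    obtain ⟨K2, h2⟩ := Th_line p hp c a q
    refine ⟨max K1 K2, fun K' hK' g hg n => ?_⟩
    rcases Finset.mem_insert.mp hg with rfl | hg
    · exact h2 K' (le_trans (le_max_right _ _) hK') n
    · exact h1 K' (le_trans (le_max_left _ _) hK') g hg n

section

variable {p a : ℕ} (hp : p.Prime) (ha : 1 ≤ a)

/-- the first property of elements -/
def P1 (p : ℕ) (s : Finset LZ) (q : LZ) (k : ℕ) (c : GR p) : Prop :=
  ∀ g ∈ s, ∀ n : ℤ, Th p (q ^ n * g) ((single (q ^ (p ^ k)) 1 - 1) * c) = 0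

theorem P1_mul (s : Finset LZ) (q : LZ) (k : ℕ) {r : RR p a} (hr : r ∈ W.SS (TT p a) q) :
    ∀ c : GR p, P1 p s q k c → P1 p s q k (r.1 * c) := by
  induction hr using Subring.closure_induction with
  | mem x hx =>
    obtain ⟨j, rfl⟩ := hx
    intro c hc g hg n
    simp only
    rw [TT_fst, mul_left_comm, Th_mul]
    have e : (q ^ j)⁻¹ * (q ^ n * g) = q ^ (n - j) * g := by
      rw [← mul_assoc, zpow_sub, mul_comm (q ^ j)⁻¹]
    rw [e]
    exact hc g hg _
  | zero =>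
    intro c hc g hg n
    rw [Prod.fst_zero, zero_mul, mul_zero, map_zero]
  | one =>
    intro c hc g hg n
    rw [Prod.fst_one, one_mul]
    exact hc g hg n
  | add x y _ _ hx hy =>
    intro c hc g hg n
    rw [Prod.fst_add, add_mul, mul_add, map_add, hx c hc g hg n, hy c hc g hg n, add_zero]
  | neg x _ hx =>
    intro c hc g hg n
    rw [Prod.fst_neg, neg_mul, mul_neg, map_neg, hx c hc g hg n, neg_zero]
  | mul x y _ _ hx hy =>
    intro c hc
    rw [Prod.fst_mul, mul_assoc]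
    exact hx _ (hy c hc)

/-- the second property of elements -/
def P2 (m : ℕ) (s : Finset LZ) (q : LZ) (y : GR m) : Prop :=
  ∀ g, y.coeff g ≠ 0 → ∃ n : ℤ, ∃ h ∈ s, g = q ^ n * h

theorem P2_mul (s : Finset LZ) (q : LZ) {r : RR p a} (hr : r ∈ W.SS (TT p a) q) :
    ∀ y : GR (p ^ a), P2 (p ^ a) s q y → P2 (p ^ a) s q (r.2 * y) := by
  induction hr using Subring.closure_induction with
  | mem x hx =>
    obtain ⟨j, rfl⟩ := hx
    intro y hy g hg
    simp only at hg
    rw [TT_snd, coeff_single_mul_apply, one_mul] at hg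
    obtain ⟨n, h, hh, e⟩ := hy _ hg
    refine ⟨n + j, h, hh, ?_⟩
    rw [zpow_add, mul_comm (q ^ n), mul_assoc, ← e, mul_inv_cancel_left]
  | zero =>
    intro y hy g hg
    rw [Prod.snd_zero, zero_mul] at hg
    exact absurd rfl hg
  | one =>
    intro y hy g hg
    rw [Prod.snd_one, one_mul] at hg
    exact hy g hg
  | add x y' _ _ hx hy' =>
    intro y hy g hg
    rw [Prod.snd_add, add_mul, MonoidAlgebra.coeff_add, Finsupp.add_apply] at hg
    by_cases h : (x.2 * y).coeff g = 0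
    · rw [h, zero_add] at hg
      exact hy' y hy g hg
    · exact hx y hy g h
  | neg x _ hx =>
    intro y hy g hg
    rw [Prod.snd_neg, neg_mul, MonoidAlgebra.coeff_neg] at hg
    apply hx y hy g
    intro h
    apply hg
    rw [Finsupp.neg_apply, h, neg_zero]
  | mul x y' _ _ hx hy' =>
    intro y hy
    rw [Prod.snd_mul, mul_assoc]
    exact hx _ (hy' y hy)

theorem vanish (w : RR p a) (q : LZ) : ∃ k : ℕ, ∀ r ∈ W.SS (TT p a) q,
    (DF hp ha).B ((TT p a (q ^ (p ^ k)) - 1) * (r * w))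
      ((TT p a (q ^ (p ^ k)) - 1) * (r * w)) = 0 := by
  obtain ⟨k, hk⟩ := Th_line_finset p hp.two_le w.1 w.2.coeff.support q
  refine ⟨k, fun r hr => ?_⟩
  rw [DF_B]
  have h1 : P1 p w.2.coeff.support q k (r.1 * w.1) := P1_mul _ _ _ hr _ (hk k le_rfl)
  have hmem : (TT p a (q ^ (p ^ k)) - 1) * r ∈ W.SS (TT p a) q := by
    refine (W.SS (TT p a) q).mul_mem ((W.SS (TT p a) q).sub_mem ?_ (W.SS (TT p a) q).one_mem) hr
    have := W.T_mem (T := TT p a) q (p ^ k : ℕ)
    rwa [zpow_natCast] at this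
  have h2 : P2 (p ^ a) w.2.coeff.support q (((TT p a (q ^ (p ^ k)) - 1) * r).2 * w.2) := by
    refine P2_mul _ _ hmem _ fun g hg => ⟨0, g, ?_, by simp⟩
    exact Finsupp.mem_support_iff.mpr hg
  rw [← finsum_zero]
  refine finsum_congr fun g => ?_
  unfold bt
  split_ifs with hu
  · have hne : (((TT p a (q ^ (p ^ k)) - 1) * r).2 * w.2).coeff g ≠ 0 := by
      rw [← Prod.snd_mul, mul_assoc]
      intro h0
      rw [h0] at hu
      exact not_isUnit_zero' hp ha hu
    obtain ⟨n, h, hh, rfl⟩ := h2 g hne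
    exact h1 h hh n
  · rfl

end

end Pool.Agent.Helper25.EMN
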