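import Mathlib

/-!
An explicit subset `EE` of the integer lattice, a union of residue classes modulo powers of a
prime `p`, which is periodic with a power of `p` as a period on every line, and which is very
sparse on infinitely many rows.
-/

namespace Pool.Agent.Helper25.EMN

/-- the level `k` class -/
def Ek (p k : ℕ) (a b : ℤ) : Prop :=
  (p : ℤ) ^ (3 * k) ∣ a - (p : ℤ) ^ k ∧ (p : ℤ) ^ (3 * k) ∣ b - (p : ℤ) ^ (2 * k)

/-- the union of the classes -/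
def EE (p : ℕ) (a b : ℤ) : Prop := ∃ k : ℕ, 1 ≤ k ∧ Ek p k a b

theorem dvd_shift {d a c q t : ℤ} (h : d ∣ t) : d ∣ a + t * q - c ↔ d ∣ a - c := by
  have e : a + t * q - c = (a - c) + t * q := by ring
  rw [e]
  exact dvd_add_left (Dvd.dvd.mul_right h q)

theorem Ek_periodic (p k K : ℕ) (hK : 3 * k ≤ K) (g1 g2 q1 q2 n : ℤ) :
    Ek p k (g1 + (n + (p : ℤ) ^ K) * q1) (g2 + (n + (p : ℤ) ^ K) * q2) ↔
      Ek p k (g1 + n * q1) (g2 + n * q2) := by
  have hd : (p : ℤ) ^ (3 * k) ∣ (p : ℤ) ^ K := pow_dvd_pow _ hK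
  unfold Ek
  have e1 : g1 + (n + (p : ℤ) ^ K) * q1 = (g1 + n * q1) + (p : ℤ) ^ K * q1 := by ring
  have e2 : g2 + (n + (p : ℤ) ^ K) * q2 = (g2 + n * q2) + (p : ℤ) ^ K * q2 := by ring
  rw [e1, e2, dvd_shift hd, dvd_shift hd]

theorem Ek_line_empty (p : ℕ) (hp : 2 ≤ p) (k : ℕ) (g1 g2 q1 q2 n : ℤ) (hq : q1 ≠ 0 ∨ q2 ≠ 0)
    (hk : |q1| + |q2| + |q2 * g1 - q1 * g2| ≤ k) :
    ¬ Ek p k (g1 + n * q1) (g2 + n * q2) := by
  rintro ⟨h1, h2⟩
  set e := q2 * g1 - q1 * g2 with he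
  set P : ℤ := (p : ℤ) ^ k with hP
  have hkP : (k : ℤ) < P := by
    have : k < p ^ k := k.lt_pow_self (by omega)
    rw [hP]
    exact_mod_cast this
  have e2 : (p : ℤ) ^ (2 * k) = P ^ 2 := by rw [hP, ← pow_mul, mul_comm]
  have e3 : (p : ℤ) ^ (3 * k) = P ^ 3 := by rw [hP, ← pow_mul, mul_comm]
  rw [e3] at h1 h2
  rw [e2] at h2
  have hdiv : P ^ 3 ∣ e - q2 * P + q1 * P ^ 2 := by
    have := dvd_sub (Dvd.dvd.mul_left h1 q2) (Dvd.dvd.mul_left h2 q1)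
    have e4 : q2 * (g1 + n * q1 - P) - q1 * (g2 + n * q2 - P ^ 2) = e - q2 * P + q1 * P ^ 2 := by
      rw [he]; ring
    rwa [e4] at this
  have hA : |q1| + |q2| + |e| ≤ P - 1 := by omega
  have a1 := abs_nonneg q1
  have a2 := abs_nonneg q2
  have a3 := abs_nonneg e
  have hP1 : 1 ≤ P := by omega
  have hPP : P ≤ P ^ 2 := by nlinarith
  have hlt : |e - q2 * P + q1 * P ^ 2| < P ^ 3 := by
    have t1 : |e - q2 * P + q1 * P ^ 2| ≤ |e| + |q2| * P + |q1| * P ^ 2 := by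
      have u1 := abs_add_le (e - q2 * P) (q1 * P ^ 2)
      have u2 := abs_sub e (q2 * P)
      rw [abs_mul, abs_of_nonneg (by positivity : (0 : ℤ) ≤ P ^ 2)] at u1
      rw [abs_mul, abs_of_nonneg (by omega : (0 : ℤ) ≤ P)] at u2
      linarith
    have t2 : |e| + |q2| * P + |q1| * P ^ 2 ≤ (|q1| + |q2| + |e|) * P ^ 2 := by nlinarith
    have t3 : (|q1| + |q2| + |e|) * P ^ 2 ≤ (P - 1) * P ^ 2 :=
      mul_le_mul_of_nonneg_right hA (by positivity)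
    have t4 : (P - 1) * P ^ 2 < P ^ 3 := by nlinarith
    linarith
  have hzero := Int.eq_zero_of_abs_lt_dvd hdiv hlt
  by_cases h0 : q1 = 0
  · have hq2 : q2 ≠ 0 := by
      rcases hq with h | h
      · exact absurd h0 h
      · exact h
    rw [h0, zero_mul, add_zero] at hzero
    have t5 : e = q2 * P := by linarith
    have t6 : |e| = |q2| * P := by rw [t5, abs_mul, abs_of_nonneg (by omega : (0 : ℤ) ≤ P)]
    have t7 : 1 ≤ |q2| := Int.one_le_abs hq2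
    nlinarith
  · have t7 : 1 ≤ |q1| := Int.one_le_abs h0
    have t5 : q1 * P ^ 2 = q2 * P - e := by linarith
    have t6 : |q1| * P ^ 2 = |q2 * P - e| := by
      rw [← t5, abs_mul, abs_of_nonneg (by positivity : (0 : ℤ) ≤ P ^ 2)]
    have t8 : |q2 * P - e| ≤ |q2| * P + |e| := by
      have u2 := abs_sub (q2 * P) e
      rw [abs_mul, abs_of_nonneg (by omega : (0 : ℤ) ≤ P)] at u2
      exact u2
    nlinarith

theorem EE_line (p : ℕ) (hp : 2 ≤ p) (g1 g2 q1 q2 : ℤ) : ∃ K : ℕ, ∀ K' : ℕ, K ≤ K' → ∀ n : ℤ,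
    (EE p (g1 + (n + (p : ℤ) ^ K') * q1) (g2 + (n + (p : ℤ) ^ K') * q2) ↔
      EE p (g1 + n * q1) (g2 + n * q2)) := by
  by_cases hq : q1 ≠ 0 ∨ q2 ≠ 0
  · set K0 : ℕ := q1.natAbs + q2.natAbs + (q2 * g1 - q1 * g2).natAbs with hK0
    have key : ∀ k : ℕ, ∀ n : ℤ, K0 ≤ k → ¬ Ek p k (g1 + n * q1) (g2 + n * q2) := by
      intro k n hk
      apply Ek_line_empty p hp _ _ _ _ _ _ hq
      rw [Int.abs_eq_natAbs, Int.abs_eq_natAbs, Int.abs_eq_natAbs]
      exact_mod_cast hk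
    refine ⟨3 * K0, fun K' hK' n => ⟨?_, ?_⟩⟩
    · rintro ⟨k, hk, h⟩
      by_cases hk0 : k ≤ K0
      · exact ⟨k, hk, (Ek_periodic p k K' (by omega) _ _ _ _ _).mp h⟩
      · exact absurd h (key k _ (by omega))
    · rintro ⟨k, hk, h⟩
      by_cases hk0 : k ≤ K0
      · exact ⟨k, hk, (Ek_periodic p k K' (by omega) _ _ _ _ _).mpr h⟩
      · exact absurd h (key k _ (by omega))
  · push Not at hq
    refine ⟨0, fun K' _ n => ?_⟩
    simp [hq.1, hq.2]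

/-- the rows on which the set is sparse -/
theorem EE_row (p : ℕ) (hp : 2 ≤ p) (k : ℕ) (hk : 1 ≤ k) (a : ℤ) :
    EE p a ((p : ℤ) ^ (2 * k)) ↔ (p : ℤ) ^ (3 * k) ∣ a - (p : ℤ) ^ k := by
  have key : ∀ i j : ℕ, (p : ℤ) ^ i ∣ (p : ℤ) ^ j → i ≤ j := by
    intro i j h
    have h' : p ^ i ∣ p ^ j := by exact_mod_cast h
    exact (Nat.pow_dvd_pow_iff_le_right (by omega)).mp h'
  constructor
  · rintro ⟨j, hj, h1, h2⟩
    rcases lt_trichotomy j k with h | h | h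
    · exfalso
      have d1 : (p : ℤ) ^ (2 * j + 1) ∣ (p : ℤ) ^ (2 * k) - (p : ℤ) ^ (2 * j) :=
        (pow_dvd_pow _ (by omega)).trans h2
      have d2 : (p : ℤ) ^ (2 * j + 1) ∣ (p : ℤ) ^ (2 * k) := pow_dvd_pow _ (by omega)
      have d3 := (dvd_sub_right d2).mp d1
      have := key _ _ d3
      omega
    · rw [h] at h1
      exact h1
    · exfalso
      have d1 : (p : ℤ) ^ (2 * k + 1) ∣ (p : ℤ) ^ (2 * k) - (p : ℤ) ^ (2 * j) :=
        (pow_dvd_pow _ (by omega)).trans h2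
      have d2 : (p : ℤ) ^ (2 * k + 1) ∣ (p : ℤ) ^ (2 * j) := pow_dvd_pow _ (by omega)
      have d3 := (dvd_sub_left d2).mp d1
      have := key _ _ d3
      omega
  · intro h
    exact ⟨k, hk, h, by simp⟩

end Pool.Agent.Helper25.EMN
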